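import Pool.Agent.W670.LL.Stm

set_option autoImplicit false

namespace Pool.Agent.W414.LL

open WeierstrassCurve Pool.Agent.W670.LL

section gen
variable {K : Type*} [Field K]

theorem X1_sub_one (h3 : (3 : K) ≠ 0) {x : K} (hx : x - 1 ≠ 0) :
    sx x - 1 = -(x ^ 3 + 9 * x ^ 2 + 3 * x + 3) / (3 * (x - 1) ^ 2) := by
  unfold sx
  field_simp
  ring

theorem X1_add_three (h3 : (3 : K) ≠ 0) {x : K} (hx : x - 1 ≠ 0) :
    sx x + 3 = -(x ^ 3 - 3 * x ^ 2 + 27 * x - 9) / (3 * (x - 1) ^ 2) := by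
  unfold sx
  field_simp
  ring

theorem X1_quad (h3 : (3 : K) ≠ 0) {x : K} (hx : x - 1 ≠ 0) :
    sx x ^ 2 - 6 * sx x - 3 =
      (x ^ 2 * (x + 3) ^ 4 + 18 * x * (x + 3) ^ 2 * (x - 1) ^ 2 - 27 * (x - 1) ^ 4) /
        (9 * (x - 1) ^ 4) := by
  have h9 : (9 : K) ≠ 0 := by
    have : (9 : K) = 3 * 3 := by norm_num
    rw [this]; exact mul_ne_zero h3 h3
  unfold sx
  field_simp
  ring

theorem X2_eq (h3 : (3 : K) ≠ 0) {x : K} (hx : x - 1 ≠ 0) :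
    sx (sx x) = x * (x + 3) ^ 2 * (x ^ 3 - 3 * x ^ 2 + 27 * x - 9) ^ 2 /
      (9 * (x - 1) ^ 2 * (x ^ 3 + 9 * x ^ 2 + 3 * x + 3) ^ 2) := by
  have h9 : (9 : K) ≠ 0 := by
    have : (9 : K) = 3 * 3 := by norm_num
    rw [this]; exact mul_ne_zero h3 h3
  have e : sx (sx x) = -(sx x * (sx x + 3) ^ 2) / (3 * (sx x - 1) ^ 2) := rfl
  rw [e, X1_add_three h3 hx, X1_sub_one h3 hx]
  unfold sx
  field_simp
  ring

theorem Y2_eq (h3 : (3 : K) ≠ 0) {ρ : K} (hρ : ρ ^ 2 = -3) {x : K} (y : K) (hx : x - 1 ≠ 0)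
    (hc : x ^ 3 + 9 * x ^ 2 + 3 * x + 3 ≠ 0) :
    sy ρ (sx x) (sy ρ x y) = -(y * (x + 3) * (x ^ 2 - 6 * x - 3) *
      (x ^ 3 - 3 * x ^ 2 + 27 * x - 9) *
      (x ^ 2 * (x + 3) ^ 4 + 18 * x * (x + 3) ^ 2 * (x - 1) ^ 2 - 27 * (x - 1) ^ 4)) /
      (27 * (x - 1) ^ 3 * (x ^ 3 + 9 * x ^ 2 + 3 * x + 3) ^ 3) := by
  have h9 : (9 : K) ≠ 0 := by
    have : (9 : K) = 3 * 3 := by norm_num
    rw [this]; exact mul_ne_zero h3 h3
  have h27 : (27 : K) ≠ 0 := by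
    have : (27 : K) = 3 * 9 := by norm_num
    rw [this]; exact mul_ne_zero h3 h9
  have hρ0 : ρ ≠ 0 := by
    rintro rfl
    apply h3
    linear_combination hρ
  have e : sy ρ (sx x) (sy ρ x y) = -(sy ρ x y * (sx x + 3) * (sx x ^ 2 - 6 * sx x - 3)) /
    (3 * ρ * (sx x - 1) ^ 3) := rfl
  rw [e, X1_add_three h3 hx, X1_sub_one h3 hx, X1_quad h3 hx]
  unfold sy
  field_simp
  rw [hρ]
  ring

/-- the slope of the line through `R`, `2R`, `-3R`, divided by `y` -/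
noncomputable def mu (x : K) : K := -(3 * x ^ 2 + 12 * x - 3) / (2 * (x ^ 3 + 6 * x ^ 2 - 3 * x)) +
  8 * (x ^ 3 + 6 * x ^ 2 - 3 * x) / (3 * (x - 1) * (x ^ 3 + 9 * x ^ 2 + 3 * x + 3))

theorem idA (h2 : (2 : K) ≠ 0) (h3 : (3 : K) ≠ 0) {x : K} (hx : x - 1 ≠ 0)
    (hf : x ^ 3 + 6 * x ^ 2 - 3 * x ≠ 0) (hc : x ^ 3 + 9 * x ^ 2 + 3 * x + 3 ≠ 0) :
    x * (x + 3) ^ 2 * (x ^ 3 - 3 * x ^ 2 + 27 * x - 9) ^ 2 /
      (9 * (x - 1) ^ 2 * (x ^ 3 + 9 * x ^ 2 + 3 * x + 3) ^ 2) =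
      (x ^ 3 + 6 * x ^ 2 - 3 * x) * mu x ^ 2 - 6 - x -
        (x ^ 2 + 3) ^ 2 / (4 * (x ^ 3 + 6 * x ^ 2 - 3 * x)) := by
  have h9 : (9 : K) ≠ 0 := by
    have : (9 : K) = 3 * 3 := by norm_num
    rw [this]; exact mul_ne_zero h3 h3
  have h4 : (4 : K) ≠ 0 := by
    have : (4 : K) = 2 * 2 := by norm_num
    rw [this]; exact mul_ne_zero h2 h2
  unfold mu
  generalize hF : x ^ 3 + 6 * x ^ 2 - 3 * x = F at *
  generalize hC : x ^ 3 + 9 * x ^ 2 + 3 * x + 3 = C at *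
  field_simp
  subst hF hC
  ring

theorem idB (h2 : (2 : K) ≠ 0) (h3 : (3 : K) ≠ 0) {x : K} (hx : x - 1 ≠ 0)
    (hf : x ^ 3 + 6 * x ^ 2 - 3 * x ≠ 0) (hc : x ^ 3 + 9 * x ^ 2 + 3 * x + 3 ≠ 0) :
    1 + mu x * (x * (x + 3) ^ 2 * (x ^ 3 - 3 * x ^ 2 + 27 * x - 9) ^ 2 /
      (9 * (x - 1) ^ 2 * (x ^ 3 + 9 * x ^ 2 + 3 * x + 3) ^ 2) - x) =
      -((x + 3) * (x ^ 2 - 6 * x - 3) *
      (x ^ 3 - 3 * x ^ 2 + 27 * x - 9) *
      (x ^ 2 * (x + 3) ^ 4 + 18 * x * (x + 3) ^ 2 * (x - 1) ^ 2 - 27 * (x - 1) ^ 4)) /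
      (27 * (x - 1) ^ 3 * (x ^ 3 + 9 * x ^ 2 + 3 * x + 3) ^ 3) := by
  have h9 : (9 : K) ≠ 0 := by
    have : (9 : K) = 3 * 3 := by norm_num
    rw [this]; exact mul_ne_zero h3 h3
  have h27 : (27 : K) ≠ 0 := by
    have : (27 : K) = 3 * 9 := by norm_num
    rw [this]; exact mul_ne_zero h3 h9
  unfold mu
  generalize hF : x ^ 3 + 6 * x ^ 2 - 3 * x = F at *
  generalize hC : x ^ 3 + 9 * x ^ 2 + 3 * x + 3 = C at *
  field_simp
  subst hF hC
  ring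

end gen

section pts
variable {K : Type*} [Field K] [DecidableEq K]

theorem generic {ρ : K} (h2 : (2 : K) ≠ 0) (h3 : (3 : K) ≠ 0) (hρ : ρ ^ 2 = -3)
    {s : Pt (6 : K) (-3) → Pt (6 : K) (-3)} (hs : IsS ρ s) {x y : K}
    (h : (Cv (6 : K) (-3)).Nonsingular x y) (hx : x ≠ 1)
    (hf : x ^ 3 + 6 * x ^ 2 - 3 * x ≠ 0) (hc : x ^ 3 + 9 * x ^ 2 + 3 * x + 3 ≠ 0) :
    s (s (Affine.Point.some x y h)) = (-3 : ℤ) • (Affine.Point.some x y h : Pt (6 : K) (-3)) := by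
  have h4 : (4 : K) ≠ 0 := by
    have : (4 : K) = 2 * 2 := by norm_num
    rw [this]; exact mul_ne_zero h2 h2
  have hx1 : x - 1 ≠ 0 := sub_ne_zero.2 hx
  have hy2 : y ^ 2 = x ^ 3 + 6 * x ^ 2 - 3 * x := by
    have := eqn h
    linear_combination this
  have hy : y ≠ 0 := by
    rintro rfl
    apply hf
    rw [← hy2]; ring
  obtain ⟨h', e1⟩ := hs.2.2 x y h hx
  have hX1 : sx x ≠ 1 := by
    intro hX
    have := X1_sub_one h3 hx1
    rw [hX, sub_self, eq_comm, neg_div, neg_eq_zero, div_eq_zero_iff] at this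
    rcases this with h5 | h5
    · exact hc h5
    · exact (mul_ne_zero h3 (pow_ne_zero 2 hx1)) h5
  obtain ⟨h'', e2⟩ := hs.2.2 (sx x) (sy ρ x y) h' hX1
  rw [e1, e2]
  -- doubling
  set F := x ^ 3 + 6 * x ^ 2 - 3 * x with hF
  set C := x ^ 3 + 9 * x ^ 2 + 3 * x + 3 with hC
  set xd : K := (x ^ 2 + 3) ^ 2 / (4 * F) with hxd
  set l : K := (3 * x ^ 2 + 12 * x - 3) / (2 * y) with hl
  set yd : K := -(y + l * (xd - x)) with hyd
  have hxd2 : xd = l ^ 2 - 6 - 2 * x := by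
    have e : l ^ 2 = (3 * x ^ 2 + 12 * x - 3) ^ 2 / (4 * F) := by
      rw [hl, div_pow, mul_pow, hy2]
      norm_num
    rw [e, hxd]
    field_simp
    rw [hF]
    ring
  obtain ⟨hd, ed⟩ := dbl_mk h h2 hy l xd yd (by rw [hl]; field_simp; ring) hxd2 hyd
  have hdiff : x - xd = 3 * (x - 1) * C / (4 * F) := by
    rw [hxd]
    field_simp
    rw [hF, hC]
    ring
  have hne : x ≠ xd := by
    rw [← sub_ne_zero, hdiff]
    exact div_ne_zero (mul_ne_zero (mul_ne_zero h3 hx1) hc) (mul_ne_zero h4 hf)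
  have hml : y * mu x + l = 8 * y * F / (3 * (x - 1) * C) := by
    have e : l = y * (3 * x ^ 2 + 12 * x - 3) / (2 * F) := by
      rw [hl, ← hy2]
      field_simp
    rw [e]
    unfold mu
    rw [← hF, ← hC]
    field_simp
    ring
  have hm : y * mu x * (x - xd) = y - yd := by
    have e : (y * mu x + l) * (x - xd) = 2 * y := by
      rw [hml, hdiff]
      field_simp
      norm_num
    rw [hyd]
    linear_combination e
  have hA := idA h2 h3 hx1 hf hc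
  have hB := idB h2 h3 hx1 hf hc
  have hX2 : sx (sx x) = (y * mu x) ^ 2 - 6 - x - xd := by
    rw [X2_eq h3 hx1, hA, mul_pow, hy2]
  have hY2 : -(sy ρ (sx x) (sy ρ x y)) = -(y + y * mu x * (sx (sx x) - x)) := by
    rw [Y2_eq h3 hρ y hx1 hc, X2_eq h3 hx1]
    congr 1
    have e : y + y * mu x * (x * (x + 3) ^ 2 * (x ^ 3 - 3 * x ^ 2 + 27 * x - 9) ^ 2 /
      (9 * (x - 1) ^ 2 * (x ^ 3 + 9 * x ^ 2 + 3 * x + 3) ^ 2) - x) = y * (1 + mu x * (x * (x + 3) ^ 2 *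
      (x ^ 3 - 3 * x ^ 2 + 27 * x - 9) ^ 2 /
      (9 * (x - 1) ^ 2 * (x ^ 3 + 9 * x ^ 2 + 3 * x + 3) ^ 2) - x)) := by ring
    rw [e, hB]
    ring
  obtain ⟨ht, et⟩ := add_mk h hd hne (y * mu x) (sx (sx x)) (-(sy ρ (sx x) (sy ρ x y))) hm hX2 hY2
  obtain ⟨hn, en⟩ := neg_mk ht
  have e3 : (-3 : ℤ) • (Affine.Point.some x y h : Pt (6 : K) (-3)) =
      -(Affine.Point.some x y h + (Affine.Point.some x y h + Affine.Point.some x y h)) := by
    have : (3 : ℤ) = 1 + (1 + 1) := by norm_num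
    rw [neg_smul, this, add_smul, add_smul, one_smul]
  rw [e3, ed, et, en]
  simp only [neg_neg]

/-- exceptional points -/
def Ex (K : Type*) [Field K] : Set (Pt (6 : K) (-3)) :=
  {P | P = 0 ∨ ∃ x y h, P = Affine.Point.some x y h ∧
    (x ^ 3 + 6 * x ^ 2 - 3 * x) * ((x - 1) * (x ^ 3 + 9 * x ^ 2 + 3 * x + 3)) = 0}

open Polynomial in
theorem ex_finite : (Ex K).Finite := by
  classical
  set p : K[X] := (X ^ 3 + 6 * X ^ 2 - 3 * X) * ((X - 1) * (X ^ 3 + 9 * X ^ 2 + 3 * X + 3)) with hp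
  have m1 : (X ^ 3 + 6 * X ^ 2 - 3 * X : K[X]).Monic := by monicity!
  have m2 : (X - 1 : K[X]).Monic := by monicity!
  have m3 : (X ^ 3 + 9 * X ^ 2 + 3 * X + 3 : K[X]).Monic := by monicity!
  have hp0 : p ≠ 0 := (m1.mul (m2.mul m3)).ne_zero
  have hr : {x : K | p.IsRoot x}.Finite := by
    refine (p.roots.toFinset.finite_toSet).subset fun x hx => ?_
    simp only [Finset.mem_coe, Multiset.mem_toFinset]
    exact (mem_roots hp0).2 hx
  let g : Pt (6 : K) (-3) → Option (K × K) := fun P => match P with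
    | .zero => none
    | .some x y _ => some (x, y)
  have hg : Function.Injective g := by
    intro P Q h
    match P, Q, h with
    | .zero, .zero, _ => rfl
    | .some x y h1, .some x' y' h2, h =>
      simp only [g, Option.some.injEq, Prod.mk.injEq] at h
      obtain ⟨rfl, rfl⟩ := h
      rfl
    | .zero, .some x' y' h2, h => simp [g] at h
    | .some x y h1, .zero, h => simp [g] at h
  have hT : (insert none (some '' ⋃ x ∈ {x : K | p.IsRoot x},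
      {q : K × K | q.1 = x ∧ (X ^ 2 - C (x ^ 3 + 6 * x ^ 2 - 3 * x) : K[X]).IsRoot q.2})).Finite := by
    apply Set.Finite.insert
    apply Set.Finite.image
    apply hr.biUnion
    intro x _
    have hq0 : (X ^ 2 - C (x ^ 3 + 6 * x ^ 2 - 3 * x) : K[X]) ≠ 0 :=
      (monic_X_pow_sub_C _ (by norm_num)).ne_zero
    have hfin : {y : K | (X ^ 2 - C (x ^ 3 + 6 * x ^ 2 - 3 * x) : K[X]).IsRoot y}.Finite := by
      refine ((X ^ 2 - C (x ^ 3 + 6 * x ^ 2 - 3 * x) : K[X]).roots.toFinset.finite_toSet).subset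
        fun y hy => ?_
      simp only [Finset.mem_coe, Multiset.mem_toFinset]
      exact (mem_roots hq0).2 hy
    refine ((Set.finite_singleton x).prod hfin).subset ?_
    rintro ⟨a, b⟩ ⟨h1, h2⟩
    exact ⟨h1, h2⟩
  refine (hT.preimage hg.injOn).subset ?_
  rintro P (rfl | ⟨x, y, h, rfl, hx⟩)
  · exact Set.mem_insert _ _
  · refine Set.mem_insert_of_mem _ ⟨(x, y), ?_, rfl⟩
    simp only [Set.mem_iUnion]
    refine ⟨x, ?_, rfl, ?_⟩
    · rw [Set.mem_setOf_eq, IsRoot.def, hp]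
      simpa using hx
    · have := eqn h
      rw [IsRoot.def]
      simp only [eval_sub, eval_pow, eval_X, eval_C]
      linear_combination this

theorem pt_infinite [IsAlgClosed K] (h2 : (2 : K) ≠ 0) (h3 : (3 : K) ≠ 0) :
    Infinite (Pt (6 : K) (-3)) := by
  let g : Pt (6 : K) (-3) → K := fun P => match P with
    | .zero => 0
    | .some x _ _ => x
  apply Infinite.of_surjective g
  intro x
  obtain ⟨y, hy⟩ := IsAlgClosed.exists_pow_nat_eq (x ^ 3 + 6 * x ^ 2 + (-3) * x) (n := 2) (by norm_num)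
  have h12 : (6 : K) ^ 2 - 4 * (-3) ≠ 0 := by
    have : (6 : K) ^ 2 - 4 * (-3) = 2 ^ 4 * 3 := by norm_num
    rw [this]
    exact mul_ne_zero (pow_ne_zero 4 h2) h3
  exact ⟨Affine.Point.some x y (nons h2 (neg_ne_zero.2 h3) h12 hy), rfl⟩

theorem s4' {K : Type} [Field K] [DecidableEq K] [IsAlgClosed K] (ρ : K) (h2 : (2 : K) ≠ 0)
    (h3 : (3 : K) ≠ 0) (hρ : ρ ^ 2 = -3) (s : Pt (6 : K) (-3) →+ Pt (6 : K) (-3)) (hs : IsS ρ s)
    (R : Pt (6 : K) (-3)) : s (s R) = (-3 : ℤ) • R := by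
  have gen : ∀ P : Pt (6 : K) (-3), P ∉ Ex K → s (s P) = (-3 : ℤ) • P := by
    intro P hP
    match P, hP with
    | .zero, hP => exact absurd (Or.inl rfl) hP
    | .some x y h, hP =>
      have hne : (x ^ 3 + 6 * x ^ 2 - 3 * x) * ((x - 1) * (x ^ 3 + 9 * x ^ 2 + 3 * x + 3)) ≠ 0 :=
        fun h0 => hP (Or.inr ⟨x, y, h, rfl, h0⟩)
      have h1 := left_ne_zero_of_mul hne
      have h4 := right_ne_zero_of_mul hne
      exact generic h2 h3 hρ hs h (sub_ne_zero.1 (left_ne_zero_of_mul h4)) h1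
        (right_ne_zero_of_mul h4)
  haveI := pt_infinite (K := K) h2 h3
  have hfin : (Ex K ∪ (fun P => R - P) ⁻¹' Ex K).Finite :=
    ex_finite.union (ex_finite.preimage (fun P _ Q _ h => by simpa using h))
  obtain ⟨P, hP⟩ := hfin.infinite_compl.nonempty
  rw [Set.mem_compl_iff, Set.mem_union, not_or] at hP
  have e1 := gen P hP.1
  have e2 := gen (R - P) hP.2
  have e3 : R = P + (R - P) := by abel
  calc s (s R) = s (s P) + s (s (R - P)) := by rw [← map_add, ← map_add, ← e3]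
    _ = (-3 : ℤ) • P + (-3 : ℤ) • (R - P) := by rw [e1, e2]
    _ = (-3 : ℤ) • R := by rw [← smul_add, ← e3]

theorem s4 : S_S4 := by
  intro K _ _ _ ρ h2 h3 hρ s hs R
  exact s4' ρ h2 h3 hρ s hs R

end pts

end Pool.Agent.W414.LL
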